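import Mathlib

set_option autoImplicit false

namespace Pool.Agent.H.MP_8d0139_an

open Matrix

/-- presentations -/
def Pres (R : Type) [Ring R] : Type 1 := Σ ι : Type, Submodule R (ι → R)

/-- a big module -/
def M0 (R : Type) [Ring R] : Type 1 := ∀ p : Pres R, (p.1 → R) ⧸ p.2

variable {R : Type} [Ring R]

instance : AddCommGroup (M0 R) := inferInstanceAs (AddCommGroup (∀ p : Pres R, (p.1 → R) ⧸ p.2))
instance : Module R (M0 R) := inferInstanceAs (Module R (∀ p : Pres R, (p.1 → R) ⧸ p.2))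

variable {m n k m' n' k' : Type}

/-- action of a matrix on tuples -/
def act [Fintype n] (P : Matrix m n R) : (n → M0 R) →+ (m → M0 R) where
  toFun x i := ∑ j, P i j • x j
  map_zero' := by funext i; simp
  map_add' x y := by funext i; simp [Finset.sum_add_distrib]

lemma act_apply [Fintype n] (P : Matrix m n R) (x : n → M0 R) (i : m) :
    act P x i = ∑ j, P i j • x j := rfl

lemma act_mul [Fintype n] [Fintype k] (P : Matrix m n R) (Q : Matrix n k R) (x : k → M0 R) :
    act (P * Q) x = act P (act Q x) := by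
  funext i
  simp only [act_apply, Matrix.mul_apply, Finset.sum_smul, Finset.smul_sum, mul_smul]
  exact Finset.sum_comm

@[simp] lemma act_zero [Fintype n] (x : n → M0 R) : act (0 : Matrix m n R) x = 0 := by
  funext i; simp [act_apply]

@[simp] lemma act_one [Fintype n] [DecidableEq n] (x : n → M0 R) : act (1 : Matrix n n R) x = x := by
  funext i; simp [act_apply, Matrix.one_apply]

@[simp] lemma act_cols [Fintype n] [Fintype k] (P : Matrix m n R) (Q : Matrix m k R)
    (x : n ⊕ k → M0 R) : act (fromCols P Q) x = act P (x ∘ Sum.inl) + act Q (x ∘ Sum.inr) := by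
  funext i; simp [act_apply]

@[simp] lemma act_rows [Fintype n] (P : Matrix m n R) (Q : Matrix m' n R) (x : n → M0 R) :
    act (fromRows P Q) x = Sum.elim (act P x) (act Q x) := by
  funext i; cases i <;> simp [act_apply]

@[simp] lemma act_blocks [Fintype n] [Fintype k] (P : Matrix m n R) (Q : Matrix m k R)
    (P' : Matrix m' n R) (Q' : Matrix m' k R) (x : n ⊕ k → M0 R) :
    act (fromBlocks P Q P' Q') x = Sum.elim (act P (x ∘ Sum.inl) + act Q (x ∘ Sum.inr))
      (act P' (x ∘ Sum.inl) + act Q' (x ∘ Sum.inr)) := by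
  rw [← fromRows_fromCols_eq_fromBlocks, act_rows, act_cols, act_cols]

lemma elim_add {α : Type*} [Add α] (a a' : m → α) (b b' : n → α) :
    Sum.elim a b + Sum.elim a' b' = Sum.elim (a + a') (b + b') := by
  funext i; cases i <;> rfl

lemma elim_inj {α : Type*} {a a' : m → α} {b b' : n → α} :
    Sum.elim a b = Sum.elim a' b' ↔ a = a' ∧ b = b' :=
  ⟨fun h => ⟨funext fun i => congrFun h (Sum.inl i), funext fun i => congrFun h (Sum.inr i)⟩,
    fun h => by rw [h.1, h.2]⟩

/-- the subgroup defined by a positive primitive formula -/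
def sem [Fintype n] [Fintype k] (P : Matrix m n R) (Q : Matrix m k R) : AddSubgroup (n → M0 R) :=
  (act Q).range.comap (act P)

lemma mem_sem [Fintype n] [Fintype k] {P : Matrix m n R} {Q : Matrix m k R} {x : n → M0 R} :
    x ∈ sem P Q ↔ ∃ y, act Q y = act P x := Iff.rfl

theorem sem_le [Fintype n] [Fintype k] [Fintype m] [Fintype k'] {P : Matrix m n R}
    {Q : Matrix m k R} {P' : Matrix m' n R} {Q' : Matrix m' k' R} (h : sem P Q ≤ sem P' Q') :
    ∃ (U : Matrix k' n R) (V : Matrix k' k R) (W : Matrix m' m R),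
      P' = Q' * U + W * P ∧ Q' * V = W * Q := by
  classical
  let p : Pres R := ⟨n ⊕ k, LinearMap.range (fromCols P (-Q)).vecMulLinear⟩
  let g : (n ⊕ k → R) →ₗ[R] M0 R :=
    (LinearMap.single R (fun p : Pres R => (p.1 → R) ⧸ p.2) p).comp p.2.mkQ
  let e : M0 R →ₗ[R] ((n ⊕ k → R) ⧸ p.2) := LinearMap.proj (φ := fun p : Pres R => (p.1 → R) ⧸ p.2) p
  have eg : ∀ v, e (g v) = p.2.mkQ v := fun v => Pi.single_eq_same (M := fun p : Pres R =>
    (p.1 → R) ⧸ p.2) p _
  have hx : (fun j => g (Pi.single (Sum.inl j) 1)) ∈ sem P Q := by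
    refine ⟨fun l => g (Pi.single (Sum.inr l) 1), funext fun i => ?_⟩
    simp only [act_apply, ← map_smul, ← map_sum]
    rw [← sub_eq_zero, ← map_sub]
    have : p.2.mkQ (∑ j, Q i j • Pi.single (Sum.inr j) 1 - ∑ j, P i j • Pi.single (Sum.inl j) 1)
        = 0 := by
      rw [Submodule.mkQ_apply, Submodule.Quotient.mk_eq_zero]
      refine ⟨-Pi.single i 1, funext fun j => ?_⟩
      cases j <;> simp [Finset.sum_apply, Pi.single_apply]
    exact (congrArg (LinearMap.single R (fun p : Pres R => (p.1 → R) ⧸ p.2) p) this).trans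
      (map_zero _)
  obtain ⟨y, hy⟩ := h hx
  choose z hz using fun l => p.2.mkQ_surjective (e (y l))
  have : ∀ i, ∃ w : m → R, w ᵥ* fromCols P (-Q) =
      ∑ j, P' i j • Pi.single (Sum.inl j) 1 - ∑ l, Q' i l • z l := by
    intro i
    have h1 := congrArg e (congrFun hy i)
    simp only [act_apply, map_sum, map_smul, eg, ← hz] at h1
    have h2 : p.2.mkQ (∑ j, P' i j • Pi.single (Sum.inl j) 1 - ∑ l, Q' i l • z l) = 0 := by
      simp only [map_sub, map_sum, map_smul, h1, sub_self]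
    exact (Submodule.Quotient.mk_eq_zero _).1 h2
  choose w hw using this
  refine ⟨Matrix.of fun l j => z l (Sum.inl j), Matrix.of fun l j => z l (Sum.inr j), Matrix.of w,
    ?_, ?_⟩
  · ext i j
    have := congrFun (hw i) (Sum.inl j)
    simp [vecMul, dotProduct, Finset.sum_apply, Pi.single_apply] at this
    simp [Matrix.mul_apply, this]
  · ext i j
    have := congrFun (hw i) (Sum.inr j)
    simp [vecMul, dotProduct, Finset.sum_apply, Pi.single_apply] at this
    simp [Matrix.mul_apply, this]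

/-- functions on rectangular matrices -/
abbrev Rk (R : Type) := ∀ (m n : Type) [Fintype m] [Fintype n], Matrix m n R → ℝ

/-- weak rank functions -/
structure WSyl (ρ : Rk R) : Prop where
  l : ∀ (m n k : Type) [Fintype m] [Fintype n] [Fintype k] (X : Matrix m n R) (Y : Matrix n k R),
    ρ m k (X * Y) ≤ ρ n k Y
  r : ∀ (m n k : Type) [Fintype m] [Fintype n] [Fintype k] (X : Matrix m n R) (Y : Matrix n k R),
    ρ m k (X * Y) ≤ ρ m n X
  add : ∀ (m n m' n' : Type) [Fintype m] [Fintype n] [Fintype m'] [Fintype n'] (X : Matrix m n R)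
    (Y : Matrix m' n' R), ρ _ _ (fromBlocks X 0 0 Y) = ρ _ _ X + ρ _ _ Y

/-- Sylvester rank functions -/
structure Syl (ρ : Rk R) : Prop extends WSyl ρ where
  tri : ∀ (m n m' n' : Type) [Fintype m] [Fintype n] [Fintype m'] [Fintype n'] (X : Matrix m n R)
    (Z : Matrix m n' R) (Y : Matrix m' n' R), ρ _ _ X + ρ _ _ Y ≤ ρ _ _ (fromBlocks X Z 0 Y)

variable [Fintype m] [Fintype n] [Fintype k] [Fintype m'] [Fintype n'] [Fintype k'] {ρ : Rk R}

lemma WSyl.lr (h : WSyl ρ) (U : Matrix m' m R) (X : Matrix m n R) (V : Matrix n n' R) :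
    ρ _ _ (U * X * V) ≤ ρ _ _ X := (h.r _ _ _ _ _).trans (h.l _ _ _ _ _)

lemma WSyl.zero (h : WSyl ρ) : ρ m n 0 = 0 := by
  have e : ∀ (m n m' n' : Type) [Fintype m] [Fintype n] [Fintype m'] [Fintype n'],
      ρ m n 0 ≤ ρ m' n' 0 := fun m n m' n' _ _ _ _ => by
    simpa using h.lr (0 : Matrix m m' R) (0 : Matrix m' n' R) (0 : Matrix n' n R)
  have := h.add m n m n 0 0
  rw [fromBlocks_zero] at this
  linarith [e m n (m ⊕ m) (n ⊕ n), e (m ⊕ m) (n ⊕ n) m n]

lemma WSyl.nonneg (h : WSyl ρ) (X : Matrix m n R) : 0 ≤ ρ m n X := by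
  simpa [h.zero] using h.l m m n 0 X

lemma WSyl.range (h : WSyl ρ) {X : Matrix m n R} {Y : Matrix m k R}
    (e : (act X).range ≤ (act Y).range) : ρ _ _ X ≤ ρ _ _ Y := by
  classical
  obtain ⟨U, V, W, h1, h2⟩ := sem_le (P := (1 : Matrix m m R)) (Q := X) (P' := (1 : Matrix m m R))
    (Q' := Y) fun x hx => by
      rw [mem_sem, act_one] at hx ⊢
      exact e hx
  have : X = Y * (U * X + V) := by
    rw [Matrix.mul_add, h2, ← Matrix.mul_assoc, ← Matrix.add_mul, ← Matrix.mul_one W, ← h1,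
      Matrix.one_mul]
  rw [this]
  exact h.r _ _ _ _ _

theorem Syl.mono (h : Syl ρ) {P : Matrix m n R} {Q : Matrix m k R} {P' : Matrix m' n R}
    {Q' : Matrix m' k' R} (e : sem P Q ≤ sem P' Q') :
    ρ _ _ (fromCols P' Q') + ρ _ _ Q ≤ ρ _ _ (fromCols P Q) + ρ _ _ Q' := by
  classical
  obtain ⟨U, V, W, h1, h2⟩ := sem_le e
  have h3 := h.tri _ _ _ _ Q (fromCols P 0) (fromCols P' Q')
  have h4 := h.lr (fromBlocks 1 0 W 1 : Matrix (m ⊕ m') (m ⊕ m') R) (fromBlocks (fromCols P Q) 0 0 Q')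
    (fromBlocks (fromRows 0 1) (fromRows (fromCols 1 0) 0) (-V) (fromCols U 1) :
      Matrix ((n ⊕ k) ⊕ k') (k ⊕ (n ⊕ k')) R)
  rw [h.add] at h4
  simp only [fromBlocks_multiply, Matrix.one_mul, Matrix.zero_mul, Matrix.mul_zero, add_zero,
    zero_add, mul_fromCols, fromCols_mul_fromRows, Matrix.mul_one, Matrix.mul_neg, h2,
    add_neg_cancel, neg_zero] at h4
  have h5 : fromCols (W * P) (0 : Matrix m' k' R) + fromCols (Q' * U) Q' = fromCols P' Q' := by
    ext i (j | j) <;> simp [h1, add_comm]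
  rw [h5] at h4
  linarith

end Pool.Agent.H.MP_8d0139_an
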