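import Mathlib
import Pool.Agent.H.MP_8d0139_an.A

set_option autoImplicit false
set_option linter.unusedSectionVars false

namespace Pool.Agent.H.MP_8d0139_an

open Matrix

variable {R : Type} [Ring R]

/-- subgroups of tuples -/
abbrev SG (R : Type) [Ring R] (n : Type) := AddSubgroup (n → M0 R)

/-- formulas -/
structure Fm (R : Type) (n : Type) : Type 1 where
  m : Type
  k : Type
  fm : Fintype m
  fk : Fintype k
  P : Matrix m n R
  Q : Matrix m k R

variable {m n k m' n' k' : Type} [Fintype m] [Fintype n] [Fintype k] [Fintype m'] [Fintype n']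
  [Fintype k']

/-- definable subgroups -/
def Df (α : SG R n) : Prop := ∃ p : Fm R n, @sem R _ _ _ _ _ p.fk p.P p.Q = α

lemma Df_sem (P : Matrix m n R) (Q : Matrix m k R) : Df (sem P Q) :=
  ⟨⟨m, k, inferInstance, inferInstance, P, Q⟩, rfl⟩

lemma Df_ind {T : SG R n → Prop} (h : ∀ (m k : Type) [Fintype m] [Fintype k] (P : Matrix m n R)
    (Q : Matrix m k R), T (sem P Q)) {α : SG R n} (hα : Df α) : T α := by
  obtain ⟨⟨m, k, _, _, P, Q⟩, rfl⟩ := hα
  exact h m k P Q

lemma sem_inf (P : Matrix m n R) (Q : Matrix m k R) (P' : Matrix m' n R) (Q' : Matrix m' k' R) :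
    sem P Q ⊓ sem P' Q' = sem (fromRows P P') (fromBlocks Q 0 0 Q') := by
  ext x
  simp only [AddSubgroup.mem_inf, mem_sem, act_blocks, act_rows, act_zero, add_zero, zero_add,
    elim_inj]
  exact ⟨fun ⟨⟨y, h⟩, y', h'⟩ => ⟨Sum.elim y y', h, h'⟩, fun ⟨y, h, h'⟩ => ⟨⟨_, h⟩, _, h'⟩⟩

lemma sem_sup (P : Matrix m n R) (Q : Matrix m k R) (P' : Matrix m' n R) (Q' : Matrix m' k' R) :
    sem P Q ⊔ sem P' Q' = sem (fromRows 0 P') (fromCols (fromRows P P') (fromBlocks Q 0 0 Q')) := by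
  ext x
  simp only [AddSubgroup.mem_sup, mem_sem, act_blocks, act_rows, act_cols, act_zero, add_zero,
    zero_add, elim_add, elim_inj]
  constructor
  · rintro ⟨a, ⟨y, h⟩, b, ⟨y', h'⟩, rfl⟩
    refine ⟨Sum.elim a (Sum.elim (-y) y'), ?_, ?_⟩
    · change act P a + act Q (-y) = 0
      rw [map_neg, h, add_neg_cancel]
    · change act P' a + act Q' y' = _
      rw [h', map_add]
  · rintro ⟨y, h, h'⟩
    refine ⟨y ∘ Sum.inl, ⟨-((y ∘ Sum.inr) ∘ Sum.inl), ?_⟩, x - y ∘ Sum.inl,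
      ⟨(y ∘ Sum.inr) ∘ Sum.inr, ?_⟩, by abel⟩
    · rw [map_neg, neg_eq_iff_add_eq_zero, add_comm, h]
    · rw [map_sub, ← h']; abel

lemma sem_comap (P : Matrix m n R) (Q : Matrix m k R) (T : Matrix n n' R) :
    (sem P Q).comap (act T) = sem (P * T) Q := by
  ext x
  simp only [AddSubgroup.mem_comap, mem_sem, act_mul]

lemma sem_range (P : Matrix m n R) (Q : Matrix m k R) (T : Matrix n n' R) :
    sem P Q ⊔ (act T).range = sem P (fromCols (P * T) Q) := by
  ext x
  simp only [AddSubgroup.mem_sup, mem_sem, act_cols, act_mul, AddMonoidHom.mem_range]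
  constructor
  · rintro ⟨a, ⟨y, h⟩, _, ⟨z, rfl⟩, rfl⟩
    refine ⟨Sum.elim z y, ?_⟩
    change act P (act T z) + act Q y = _
    rw [h, map_add, add_comm]
  · rintro ⟨y, h⟩
    refine ⟨x - act T (y ∘ Sum.inl), ⟨y ∘ Sum.inr, ?_⟩, _, ⟨_, rfl⟩, by abel⟩
    rw [map_sub, ← h]; abel

lemma sem_map [DecidableEq n'] (P : Matrix m n R) (Q : Matrix m k R) (T : Matrix n' n R) :
    (sem P Q).map (act T) = sem (fromRows 1 0) (fromBlocks T 0 P Q) := by
  ext x
  simp only [AddSubgroup.mem_map, mem_sem, act_blocks, act_rows, act_zero, act_one, add_zero,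
    elim_inj]
  constructor
  · rintro ⟨a, ⟨y, h⟩, rfl⟩
    refine ⟨Sum.elim a (-y), rfl, ?_⟩
    change act P a + act Q (-y) = 0
    rw [map_neg, h, add_neg_cancel]
  · rintro ⟨y, h, h'⟩
    refine ⟨y ∘ Sum.inl, ⟨-(y ∘ Sum.inr), ?_⟩, h⟩
    rw [map_neg, neg_eq_iff_add_eq_zero, add_comm, h']

lemma sem_ker (P : Matrix m n R) : (act P).ker = sem P (0 : Matrix m Empty R) := by
  ext x
  simp [mem_sem, eq_comm]

lemma Df.inf {α β : SG R n} (h : Df α) (h' : Df β) : Df (α ⊓ β) :=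
  Df_ind (T := fun α => Df (α ⊓ β)) (fun _ _ _ _ P Q => Df_ind (T := fun β => Df (sem P Q ⊓ β))
    (fun _ _ _ _ P' Q' => by rw [sem_inf]; exact Df_sem _ _) h') h

lemma Df.sup {α β : SG R n} (h : Df α) (h' : Df β) : Df (α ⊔ β) :=
  Df_ind (T := fun α => Df (α ⊔ β)) (fun _ _ _ _ P Q => Df_ind (T := fun β => Df (sem P Q ⊔ β))
    (fun _ _ _ _ P' Q' => by rw [sem_sup]; exact Df_sem _ _) h') h

lemma Df.comap {α : SG R n} (h : Df α) (T : Matrix n n' R) : Df (α.comap (act T)) :=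
  Df_ind (T := fun α => Df (α.comap (act T)))
    (fun _ _ _ _ P Q => by rw [sem_comap]; exact Df_sem _ _) h

lemma Df.map {α : SG R n} (h : Df α) (T : Matrix n' n R) : Df (α.map (act T)) := by
  classical
  exact Df_ind (T := fun α => Df (α.map (act T)))
    (fun _ _ _ _ P Q => by rw [sem_map]; exact Df_sem _ _) h

lemma Df.range {α : SG R n} (h : Df α) (T : Matrix n n' R) : Df (α ⊔ (act T).range) :=
  Df_ind (T := fun α => Df (α ⊔ (act T).range))
    (fun _ _ _ _ P Q => by rw [sem_range]; exact Df_sem _ _) h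

lemma Df_ker (P : Matrix m n R) : Df (act P).ker := by rw [sem_ker]; exact Df_sem _ _

lemma ker_zero : (act (0 : Matrix m n R)).ker = ⊤ := by ext x; simp

lemma Df_top : Df (⊤ : SG R n) := by rw [← ker_zero (m := n)]; exact Df_ker _

/-- codimension systems -/
abbrev Cd (R : Type) [Ring R] := ∀ (n : Type) [Fintype n], SG R n → ℝ

/-- valuations -/
structure Val (c : Cd R) : Prop where
  md : ∀ (n : Type) [Fintype n] (α β : SG R n), Df α → Df β →
    c n (α ⊓ β) + c n (α ⊔ β) = c n α + c n β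
  cm : ∀ (n n' : Type) [Fintype n] [Fintype n'] (T : Matrix n n' R) (α : SG R n), Df α →
    c n' (α.comap (act T)) = c n α - c n (α ⊔ (act T).range)
  tp : ∀ (n : Type) [Fintype n], c n ⊤ = 0

/-- antitone systems -/
def Anti (c : Cd R) : Prop := ∀ (n : Type) [Fintype n] (α β : SG R n), Df α → Df β → α ≤ β →
  c n β ≤ c n α

lemma Val.add {c c' : Cd R} (h : Val c) (h' : Val c') : Val fun n _ α => c n α + c' n α :=
  ⟨fun n _ α β a b => by linarith [h.md n α β a b, h'.md n α β a b],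
    fun n n' _ _ T α a => by linarith [h.cm n n' T α a, h'.cm n n' T α a],
    fun n _ => by rw [h.tp, h'.tp, add_zero]⟩

lemma Val.sub {c c' : Cd R} (h : Val c) (h' : Val c') : Val fun n _ α => c n α - c' n α :=
  ⟨fun n _ α β a b => by linarith [h.md n α β a b, h'.md n α β a b],
    fun n n' _ _ T α a => by linarith [h.cm n n' T α a, h'.cm n n' T α a],
    fun n _ => by rw [h.tp, h'.tp, sub_zero]⟩

/-- rank function of a system -/
def rho (c : Cd R) : Rk R := fun _ n _ _ P => c n (act P).ker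

theorem Val.wsyl {c : Cd R} (h : Val c) (h' : Anti c) : WSyl (rho c) := by
  classical
  have nn : ∀ (n : Type) [Fintype n] (α : SG R n), Df α → 0 ≤ c n α := fun n _ α a => by
    have := h' n α ⊤ a Df_top le_top
    rwa [h.tp] at this
  refine ⟨fun m n k _ _ _ X Y => h' _ _ _ (Df_ker _) (Df_ker _) fun x hx => ?_,
    fun m n k _ _ _ X Y => ?_, fun m n m' n' _ _ _ _ X Y => ?_⟩
  · rw [AddMonoidHom.mem_ker] at hx ⊢
    rw [act_mul, hx, map_zero]
  · have : (act (X * Y)).ker = (act X).ker.comap (act Y) := by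
      ext x; simp [act_mul]
    simp only [rho]
    rw [this, h.cm _ _ _ _ (Df_ker _)]
    linarith [nn _ _ ((Df_ker X).range Y)]
  · let p : Matrix n (n ⊕ n') R := fromCols 1 0
    let q : Matrix n' (n ⊕ n') R := fromCols 0 1
    have e1 : (act (fromBlocks X 0 0 Y)).ker =
        (act X).ker.comap (act p) ⊓ (act Y).ker.comap (act q) := by
      ext x
      have : (0 : m ⊕ m' → M0 R) = Sum.elim (0 : m → M0 R) (0 : m' → M0 R) := by
        funext i; cases i <;> rfl
      simp only [AddMonoidHom.mem_ker, act_blocks, act_zero, add_zero, zero_add, this, elim_inj,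
        AddSubgroup.mem_inf, AddSubgroup.mem_comap, p, q, act_cols, act_one]
    have e2 : (act X).ker.comap (act p) ⊔ (act Y).ker.comap (act q) = ⊤ := by
      refine top_unique fun x _ => AddSubgroup.mem_sup.2
        ⟨Sum.elim 0 (x ∘ Sum.inr), by simp [p], Sum.elim (x ∘ Sum.inl) 0, by simp [q], ?_⟩
      funext i; cases i <;> simp
    have e3 : (act p).range = ⊤ := top_unique fun x _ => ⟨Sum.elim x 0, by simp [p]⟩
    have e4 : (act q).range = ⊤ := top_unique fun x _ => ⟨Sum.elim 0 x, by simp [q]⟩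
    have := h.md _ _ _ ((Df_ker X).comap p) ((Df_ker Y).comap q)
    rw [e2, h.cm _ _ _ _ (Df_ker _), h.cm _ _ _ _ (Df_ker _), e3, e4, sup_top_eq, sup_top_eq,
      h.tp, h.tp, h.tp, ← e1] at this
    simp only [rho]
    linarith

open Classical in
/-- the system attached to a rank function -/
noncomputable def cod (ρ : Rk R) : Cd R := fun _ _ α =>
  if h : Df α then @ρ _ _ h.choose.fm (@instFintypeSum _ _ _ h.choose.fk)
    (fromCols h.choose.P h.choose.Q) - @ρ _ _ h.choose.fm h.choose.fk h.choose.Q else 0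

lemma cod_sub (ρ ρ' : Rk R) (α : SG R n) :
    cod (fun m n _ _ X => ρ m n X - ρ' m n X) n α = cod ρ n α - cod ρ' n α := by
  simp only [cod]
  split_ifs
  · ring
  · ring

variable {ρ : Rk R}

lemma Syl.cod_sem (h : Syl ρ) (P : Matrix m n R) (Q : Matrix m k R) :
    cod ρ n (sem P Q) = ρ _ _ (fromCols P Q) - ρ _ _ Q := by
  rw [cod, dif_pos (Df_sem P Q)]
  have e := (Df_sem P Q).choose_spec
  generalize (Df_sem P Q).choose = p at e
  obtain ⟨m', k', _, _, P', Q'⟩ := p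
  linarith [h.mono e.le, h.mono e.ge]

lemma Syl.anti (h : Syl ρ) : Anti (cod ρ) := fun n _ α β a b =>
  Df_ind (T := fun α => α ≤ β → cod ρ n β ≤ cod ρ n α) (fun _ _ _ _ P Q =>
    Df_ind (T := fun β => sem P Q ≤ β → cod ρ n β ≤ cod ρ n (sem P Q))
    (fun _ _ _ _ P' Q' e => by rw [h.cod_sem, h.cod_sem]; linarith [h.mono e]) b) a

lemma WSyl.range_eq (h : WSyl ρ) {X : Matrix m n R} {Y : Matrix m k R}
    (e : (act X).range = (act Y).range) : ρ _ _ X = ρ _ _ Y :=
  le_antisymm (h.range e.le) (h.range e.ge)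

lemma Syl.rho (h : Syl ρ) (P : Matrix m n R) : rho (cod ρ) m n P = ρ m n P := by
  rw [MP_8d0139_an.rho, sem_ker, h.cod_sem, h.zero, sub_zero]
  refine h.range_eq ?_
  ext x
  simp only [AddMonoidHom.mem_range, act_cols, act_zero, add_zero]
  exact ⟨fun ⟨y, e⟩ => ⟨_, e⟩, fun ⟨y, e⟩ => ⟨Sum.elim y 0, e⟩⟩

lemma Syl.val (h : Syl ρ) : Val (cod ρ) := by
  refine ⟨fun n _ α β a b => Df_ind (T := fun α => cod ρ n (α ⊓ β) + cod ρ n (α ⊔ β) =
    cod ρ n α + cod ρ n β) (fun _ _ _ _ P Q => Df_ind (T := fun β => cod ρ n (sem P Q ⊓ β) +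
      cod ρ n (sem P Q ⊔ β) = cod ρ n (sem P Q) + cod ρ n β) (fun _ _ _ _ P' Q' => ?_) b) a,
    fun n n' _ _ T α a => Df_ind (T := fun α => cod ρ n' (α.comap (act T)) =
      cod ρ n α - cod ρ n (α ⊔ (act T).range)) (fun _ _ _ _ P Q => ?_) a, fun n _ => ?_⟩
  · rw [sem_inf, sem_sup, h.cod_sem, h.cod_sem, h.cod_sem, h.cod_sem, h.add]
    have := h.range_eq (X := fromCols (fromRows 0 P') (fromCols (fromRows P P')
      (fromBlocks Q 0 0 Q'))) (Y := fromBlocks (fromCols P Q) 0 0 (fromCols P' Q')) (by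
      ext x
      simp only [AddMonoidHom.mem_range, act_cols, act_rows, act_blocks, act_zero, add_zero,
        zero_add, elim_add]
      constructor
      · rintro ⟨y, rfl⟩
        refine ⟨Sum.elim (Sum.elim ((y ∘ Sum.inr) ∘ Sum.inl) (((y ∘ Sum.inr) ∘ Sum.inr) ∘ Sum.inl))
          (Sum.elim (y ∘ Sum.inl + (y ∘ Sum.inr) ∘ Sum.inl)
            (((y ∘ Sum.inr) ∘ Sum.inr) ∘ Sum.inr)), ?_⟩
        simp only [Sum.elim_comp_inl, Sum.elim_comp_inr, map_add, add_assoc]
      · rintro ⟨y, rfl⟩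
        refine ⟨Sum.elim ((y ∘ Sum.inr) ∘ Sum.inl - (y ∘ Sum.inl) ∘ Sum.inl)
          (Sum.elim ((y ∘ Sum.inl) ∘ Sum.inl) (Sum.elim ((y ∘ Sum.inl) ∘ Sum.inr)
            ((y ∘ Sum.inr) ∘ Sum.inr))), ?_⟩
        simp only [Sum.elim_comp_inl, Sum.elim_comp_inr, map_sub, ← add_assoc, sub_add_cancel])
    rw [h.add] at this
    linarith
  · rw [sem_comap, sem_range, h.cod_sem, h.cod_sem, h.cod_sem]
    have := h.range_eq (X := fromCols P (fromCols (P * T) Q)) (Y := fromCols P Q) (by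
      ext x
      simp only [AddMonoidHom.mem_range, act_cols, act_mul]
      constructor
      · rintro ⟨y, rfl⟩
        refine ⟨Sum.elim (y ∘ Sum.inl + act T ((y ∘ Sum.inr) ∘ Sum.inl))
          ((y ∘ Sum.inr) ∘ Sum.inr), ?_⟩
        simp only [Sum.elim_comp_inl, Sum.elim_comp_inr, map_add, add_assoc]
      · rintro ⟨y, rfl⟩
        refine ⟨Sum.elim (y ∘ Sum.inl) (Sum.elim 0 (y ∘ Sum.inr)), ?_⟩
        simp only [Sum.elim_comp_inl, Sum.elim_comp_inr, map_zero, zero_add])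
    linarith
  · have := h.rho (0 : Matrix n n R)
    rwa [MP_8d0139_an.rho, ker_zero, h.zero] at this

end Pool.Agent.H.MP_8d0139_an
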