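import Mathlib
import Pool.Agent.H.MP_8d0139_an.B

set_option autoImplicit false
set_option linter.unusedSectionVars false

namespace Pool.Agent.H.MP_8d0139_an

open Matrix

variable {R : Type} [Ring R] {n n' : Type} [Fintype n] [Fintype n']

/-- sums of increments along chains -/
inductive Ch (h : SG R n → ℝ) (α : SG R n) : SG R n → ℝ → Prop
  | nil : Df α → Ch h α α 0
  | skip {β γ : SG R n} {r : ℝ} : Ch h α β r → Df γ → β ≤ γ → Ch h α γ r
  | take {β γ : SG R n} {r : ℝ} : Ch h α β r → Df γ → β ≤ γ → Ch h α γ (r + (h β - h γ))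

variable {h : SG R n → ℝ}

lemma Ch.df {α β : SG R n} {r : ℝ} (c : Ch h α β r) : Df β ∧ α ≤ β := by
  induction c with
  | nil a => exact ⟨a, le_rfl⟩
  | skip _ a b ih => exact ⟨a, ih.2.trans b⟩
  | take _ a b ih => exact ⟨a, ih.2.trans b⟩

lemma Ch.bd {u : SG R n → ℝ} (h1 : ∀ β γ, Df β → Df γ → β ≤ γ → u γ ≤ u β)
    (h2 : ∀ β γ, Df β → Df γ → β ≤ γ → u γ - h γ ≤ u β - h β) {α β : SG R n} {r : ℝ}
    (c : Ch h α β r) : r ≤ u α - u β := by
  induction c with
  | nil a => simp
  | skip c a b ih => linarith [h1 _ _ c.df.1 a b]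
  | take c a b ih => linarith [h2 _ _ c.df.1 a b]

lemma Ch.cat {α β γ : SG R n} {r r' : ℝ} (c : Ch h α β r) (c' : Ch h β γ r') :
    Ch h α γ (r + r') := by
  induction c' with
  | nil a => simpa using c
  | skip _ a b ih => exact ih.skip a b
  | take _ a b ih => rw [← add_assoc]; exact ih.take a b

lemma Ch.split (hm : ∀ α β, Df α → Df β → h (α ⊓ β) + h (α ⊔ β) = h α + h β)
    {α β δ : SG R n} {r : ℝ} (hδ : Df δ) (c : Ch h α β r) :
    ∃ r1 r2, Ch h (α ⊓ δ) (β ⊓ δ) r1 ∧ Ch h (α ⊔ δ) (β ⊔ δ) r2 ∧ r = r1 + r2 := by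
  induction c with
  | nil a => exact ⟨0, 0, .nil (a.inf hδ), .nil (a.sup hδ), by simp⟩
  | skip _ a b ih =>
    obtain ⟨r1, r2, c1, c2, e⟩ := ih
    exact ⟨r1, r2, c1.skip (a.inf hδ) (inf_le_inf_right _ b),
      c2.skip (a.sup hδ) (sup_le_sup_right b _), e⟩
  | take c a b ih =>
    obtain ⟨r1, r2, c1, c2, e⟩ := ih
    exact ⟨_, _, c1.take (a.inf hδ) (inf_le_inf_right _ b),
      c2.take (a.sup hδ) (sup_le_sup_right b _), by linarith [hm _ _ c.df.1 hδ, hm _ _ a hδ]⟩

lemma Ch.tr {h' : SG R n' → ℝ} (Φ : SG R n → SG R n') (hΦ : Monotone Φ)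
    (hd : ∀ β, Df β → Df (Φ β)) {α ω : SG R n} (κ : ℝ)
    (hh : ∀ β, Df β → α ≤ β → β ≤ ω → h' (Φ β) = h β + κ) {β : SG R n} {r : ℝ}
    (c : Ch h α β r) : β ≤ ω → Ch h' (Φ α) (Φ β) r := by
  induction c with
  | nil a => exact fun _ => .nil (hd _ a)
  | skip _ a b ih => exact fun e => (ih (b.trans e)).skip (hd _ a) (hΦ b)
  | take c a b ih =>
    intro e
    have := (ih (b.trans e)).take (hd _ a) (hΦ b)
    rw [hh _ c.df.1 c.df.2 (b.trans e), hh _ a (c.df.2.trans b) e] at this
    convert this using 2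
    ring

/-- positive variation -/
noncomputable def pv (h : SG R n → ℝ) (α β : SG R n) : ℝ := sSup {r | Ch h α β r}

/-- the setting of two monotone valuations -/
structure Two (f g : Cd R) : Prop where
  vf : Val f
  vg : Val g
  af : Anti f
  ag : Anti g

variable {f g : Cd R}

/-- difference -/
def df (f g : Cd R) : Cd R := fun n _ α => f n α - g n α

lemma Two.bd (T : Two f g) {α β : SG R n} {r : ℝ} (c : Ch (df f g n) α β r) :
    r ≤ f n α - f n β :=
  c.bd (T.af n) fun β γ a b e => by simp only [df]; linarith [T.ag n β γ a b e]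

lemma Two.le (T : Two f g) {α β : SG R n} {r : ℝ} (c : Ch (df f g n) α β r) :
    r ≤ pv (df f g n) α β := le_csSup ⟨_, fun _ c => T.bd c⟩ c

lemma pv_le {α β : SG R n} (a : Df α) (b : Df β) (e : α ≤ β) {x : ℝ}
    (hx : ∀ r, Ch h α β r → r ≤ x) : pv h α β ≤ x := csSup_le ⟨0, (Ch.nil a).skip b e⟩ hx

lemma Two.cat (T : Two f g) {α β γ : SG R n} (a : Df α) (b : Df β) (c : Df γ) (e : α ≤ β)
    (e' : β ≤ γ) : pv (df f g n) α γ = pv (df f g n) α β + pv (df f g n) β γ := by
  refine le_antisymm (pv_le a c (e.trans e') fun r hr => ?_) ?_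
  · obtain ⟨r1, r2, c1, c2, rfl⟩ := hr.split ((T.vf.sub T.vg).md n) b
    rw [inf_eq_left.2 e, inf_eq_right.2 e'] at c1
    rw [sup_eq_right.2 e, sup_eq_left.2 e'] at c2
    exact add_le_add (T.le c1) (T.le c2)
  · rw [← le_sub_iff_add_le]
    refine pv_le a b e fun r hr => ?_
    rw [le_sub_comm]
    exact pv_le b c e' fun r' hr' => by linarith [T.le (hr.cat hr')]

lemma Two.tp (T : Two f g) {α β : SG R n} (a : Df α) (b : Df β) :
    pv (df f g n) (α ⊓ β) α = pv (df f g n) β (α ⊔ β) := by
  refine le_antisymm (pv_le (a.inf b) a inf_le_left fun r hr => ?_)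
    (pv_le b (a.sup b) le_sup_right fun r hr => ?_)
  · obtain ⟨r1, r2, c1, c2, rfl⟩ := hr.split ((T.vf.sub T.vg).md n) b
    rw [inf_assoc, inf_idem] at c1
    rw [sup_eq_right.2 inf_le_right] at c2
    linarith [T.bd c1, T.le c2]
  · obtain ⟨r1, r2, c1, c2, rfl⟩ := hr.split ((T.vf.sub T.vg).md n) a
    rw [inf_comm β, inf_eq_right.2 (le_sup_left : α ≤ α ⊔ β)] at c1
    rw [sup_comm β, sup_eq_left.2 (le_sup_left : α ≤ α ⊔ β)] at c2
    linarith [T.bd c2, T.le c1]

/-- positive part as a system -/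
noncomputable def pp (f g : Cd R) : Cd R := fun n _ α => pv (df f g n) α ⊤

lemma Two.sub (T : Two f g) {α β : SG R n} (a : Df α) (b : Df β) (e : α ≤ β) :
    pp f g n α - pp f g n β = pv (df f g n) α β := by
  simp only [pp]
  rw [T.cat a b Df_top e le_top]; ring

theorem Two.val (T : Two f g) : Val (pp f g) := by
  refine ⟨fun n _ α β a b => ?_, fun n n' _ _ M α a => ?_, fun n _ => le_antisymm
    (pv_le Df_top Df_top le_rfl fun r hr => by simpa using T.bd hr) (T.le (.nil Df_top))⟩
  · linarith [T.sub (a.inf b) a inf_le_left, T.sub b (a.sup b) le_sup_right, T.tp a b]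
  · rw [T.sub a (a.range M) le_sup_left]
    have hv := (T.vf.sub T.vg).cm n n' M
    refine le_antisymm (pv_le (a.comap M) Df_top le_top fun r hr => T.le ?_)
      (pv_le a (a.range M) le_sup_left fun r hr => T.le ?_)
    · have := hr.tr (h' := df f g n) (fun β => α ⊔ β.map (act M))
        (fun _ _ e => sup_le_sup_left (AddSubgroup.map_mono e) _) (fun β b => a.sup (b.map M))
        (ω := ⊤) (df f g n (α ⊔ (act M).range)) (fun β b e _ => by
          have e1 : (α ⊔ β.map (act M)).comap (act M) = β := by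
            refine le_antisymm (fun x hx => ?_) fun x hx =>
              AddSubgroup.mem_sup_right (AddSubgroup.mem_map_of_mem _ hx)
            obtain ⟨y, hy, _, ⟨z, hz, rfl⟩, e2⟩ := AddSubgroup.mem_sup.1 hx
            have : x - z ∈ β := e (show act M (x - z) ∈ α by
              rw [map_sub, ← e2, add_sub_cancel_right]; exact hy)
            simpa using add_mem this hz
          have := hv _ (a.sup (b.map M))
          rw [e1, sup_assoc, sup_eq_right.2 (AddSubgroup.map_le_range _ _)] at this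
          simp only [df] at this ⊢
          linarith) le_rfl
      simp only [sup_eq_left.2 (AddSubgroup.map_comap_le _ _), ← AddMonoidHom.range_eq_map] at this
      exact this
    · have := hr.tr (h' := df f g n') (fun β => β.comap (act M))
        (fun _ _ e => AddSubgroup.comap_mono e) (fun β b => b.comap M)
        (ω := α ⊔ (act M).range) (-df f g n (α ⊔ (act M).range)) (fun β b e e' => by
          have := hv _ b
          rw [le_antisymm (sup_le e' le_sup_right) (sup_le_sup_right e _)] at this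
          simp only [df] at this ⊢
          linarith) le_rfl
      have e : (α ⊔ (act M).range).comap (act M) = ⊤ :=
        top_unique fun x _ => AddSubgroup.mem_sup_right ⟨x, rfl⟩
      simpa only [e] using this

theorem Two.anti (T : Two f g) : Anti (pp f g) := fun n _ α β a b e => by
  linarith [T.sub a b e, T.le ((Ch.nil (h := df f g n) a).skip b e)]

theorem Two.anti' (T : Two f g) : Anti fun n _ α => pp f g n α - df f g n α :=
  fun n _ α β a b e => by
    linarith [T.sub a b e, T.le ((Ch.nil (h := df f g n) a).take b e)]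

theorem Two.least (T : Two f g) {u : Cd R} (h1 : Anti u)
    (h2 : Anti fun n _ α => u n α - df f g n α) : Anti fun n _ α => u n α - pp f g n α :=
  fun n _ α β a b e => by
    linarith [T.sub a b e, pv_le a b e fun r (hr : Ch (df f g n) α β r) => hr.bd (h1 n) (h2 n)]

end Pool.Agent.H.MP_8d0139_an
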