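import Mathlib

set_option autoImplicit false
set_option linter.unusedSectionVars false

namespace Pool.Agent.H.MP_8d0139_an

open Matrix Filter Topology Finset

section alg
variable {B : Type} [Ring B] {κ : Type} [Fintype κ] [DecidableEq κ]

/-- diagonal matrix with one empty slot -/
def dg (f : κ → B) : Matrix (Option κ) (Option κ) B := diagonal fun o => o.elim 0 f

lemma dg_mul (f g : κ → B) : dg f * dg g = dg fun i => f i * g i := by
  simp only [dg, diagonal_mul_diagonal]
  congr 1
  funext o
  cases o <;> simp

/-- two by two block in a slot and the empty slot -/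
def bl (i : κ) (x y z w : B) : Matrix (Option κ) (Option κ) B :=
  1 + single (some i) (some i) x + single (some i) none y + single none (some i) z +
    single none none w

lemma bl_mul (i : κ) (x y z w x' y' z' w' : B) : bl i x y z w * bl i x' y' z' w' =
    bl i (x + x' + x * x' + y * z') (y + y' + x * y' + y * w') (z + z' + z * x' + w * z')
      (w + w' + z * y' + w * w') := by
  simp only [bl, mul_add, add_mul, one_mul, mul_one, single_mul_single_same, single_add,
    single_mul_single_of_ne _ _ _ _ (Option.some_ne_none i),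
    single_mul_single_of_ne _ _ _ _ (Option.some_ne_none i).symm]
  abel

lemma bl_dg (i : κ) (x y z w : B) (f : κ → B) (h : z * f i = 0) :
    bl i x y z w * dg f = dg (Function.update f i (f i + x * f i)) := by
  ext p q
  rw [dg, mul_diagonal]
  rcases p with _ | p <;> rcases q with _ | q
  · simp [dg]
  · by_cases e : i = q
    · subst e; simp [dg, bl, h]
    · simp [dg, bl, e]
  · simp [dg]
  · by_cases e : i = q
    · subst e
      by_cases e' : i = p
      · subst e'; simp [dg, bl, add_mul]
      · simp [dg, bl, e', Ne.symm e']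
    · by_cases e' : p = q
      · subst e'; simp [dg, bl, e, Ne.symm e]
      · simp [dg, bl, e, e']

lemma dg_bl (i : κ) (x y z w : B) (f : κ → B) (h : f i * y = 0) :
    dg f * bl i x y z w = dg (Function.update f i (f i + f i * x)) := by
  ext p q
  rw [dg, diagonal_mul]
  rcases p with _ | p <;> rcases q with _ | q
  · simp [dg]
  · simp [dg]
  · by_cases e : i = p
    · subst e; simp [dg, bl, h]
    · simp [dg, bl, e]
  · by_cases e : i = p
    · subst e
      by_cases e' : i = q
      · subst e'; simp [dg, bl, mul_add]
      · simp [dg, bl, e']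
    · by_cases e' : p = q
      · subst e'; simp [dg, bl, e, Ne.symm e]
      · simp [dg, bl, e, e']

/-- matrices preserving multiples of `b` -/
def JP (b : B) (V : Matrix (Option κ) (Option κ) B) : Prop :=
  ∀ Z : Matrix (Option κ) (Option κ) B, ∃ Z', V * (diagonal (fun _ => b) * Z) =
    diagonal (fun _ => b) * Z'

lemma JP.mul {b : B} {V W : Matrix (Option κ) (Option κ) B} (h : JP b V) (h' : JP b W) :
    JP b (V * W) := fun Z => by
  obtain ⟨Z', e⟩ := h' Z
  rw [mul_assoc, e]
  exact h Z'

lemma JP_bl (i : κ) (b x y z w : B) :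
    JP b (bl i (b * x - 1) (b * y - 1) (b * z + 1) (b * w - 1)) := fun Z => by
  refine ⟨(bl i (x * b - 1) (y * b - 1) (z * b + 1) (w * b - 1)) * Z, ?_⟩
  rw [← mul_assoc, ← mul_assoc]
  congr 1
  have h1 : ∀ (p q : Option κ) (c : B), single p q c * diagonal (fun _ => b) = single p q (c * b) := by
    intro p q c; ext p' q'; rw [mul_diagonal]; simp [single_apply, ite_and]
  have h2 : ∀ (p q : Option κ) (c : B), diagonal (fun _ => b) * single p q c = single p q (b * c) := by
    intro p q c; ext p' q'; rw [diagonal_mul]; simp [single_apply, ite_and]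
  simp only [bl, mul_add, add_mul, mul_sub, sub_mul, h1, h2, one_mul, mul_one, mul_assoc]

theorem slot (b z Y z' Y' e : B) (h1 : Y * (b * z) * e = e) (h2 : Y' * (b * z') * e = e)
    (h3 : e * (Y * (b * z)) = e) (h4 : e * (Y' * (b * z')) = e) :
    ∃ V V' : Matrix (Option κ) (Option κ) B, V' * V = 1 ∧ JP b V ∧
      V * dg (fun _ => b * z' * e) = dg (fun _ => b * z * e) ∧
      dg (fun _ => e * Y') * V' = dg (fun _ => e * Y) := by
  have key : ∀ s : Finset κ, ∃ V V' : Matrix (Option κ) (Option κ) B, V' * V = 1 ∧ JP b V ∧
      V * dg (fun _ => b * z' * e) = dg (fun j => if j ∈ s then b * z * e else b * z' * e) ∧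
      dg (fun _ => e * Y') * V' = dg (fun j => if j ∈ s then e * Y else e * Y') := by
    intro s
    induction s using Finset.induction_on with
    | empty => exact ⟨1, 1, one_mul _, fun Z => ⟨Z, one_mul _⟩, by simp, by simp⟩
    | insert i s hi ih =>
      obtain ⟨V, V', v1, v2, v3, v4⟩ := ih
      obtain ⟨T, hT⟩ : ∃ T, T = b * z * Y' := ⟨_, rfl⟩
      obtain ⟨S, hS⟩ : ∃ S, S = b * z' * Y := ⟨_, rfl⟩
      have c1 : T * (b * z' * e) = b * z * e := by
        rw [hT, mul_assoc (b * z), ← mul_assoc Y', h2]
      have c2 : S * (b * z * e) = b * z' * e := by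
        rw [hS, mul_assoc (b * z'), ← mul_assoc Y, h1]
      have r1 : e * Y' * S = e * Y := by
        rw [hS, ← mul_assoc, mul_assoc e, h4]
      have r2 : e * Y * T = e * Y' := by
        rw [hT, ← mul_assoc, mul_assoc e, h3]
      refine ⟨bl i (T + T - T * S * T - 1) (T * S - 1) (-(S * T) + 1) (S - 1) * V,
        V' * bl i (S - 1) (1 - S * T) (T * S - 1) (T + T - T * S * T - 1), ?_, JP.mul ?_ v2, ?_, ?_⟩
      · rw [mul_assoc, ← mul_assoc (bl _ _ _ _ _), bl_mul]
        have : ∀ x y z w : B, x = 0 → y = 0 → z = 0 → w = 0 → bl i x y z w = 1 := by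
          rintro _ _ _ _ rfl rfl rfl rfl; simp [bl]
        rw [this _ _ _ _ (by noncomm_ring) (by noncomm_ring) (by noncomm_ring) (by noncomm_ring),
          one_mul, v1]
      · convert JP_bl i b (z * Y' + z * Y' - z * Y' * S * T) (z * Y' * S) (-(z' * Y * T)) (z' * Y)
          using 3
        · rw [hT]; noncomm_ring
        · rw [hT]; noncomm_ring
        · rw [hS]; noncomm_ring
        · rw [hS]; noncomm_ring
      · rw [mul_assoc, v3, bl_dg]
        · congr 1
          funext j
          by_cases e : j = i
          · subst e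
            have c3 : T * S * T * (b * z' * e) = b * z * e := by
              rw [mul_assoc _ T, c1, mul_assoc T S, c2, c1]
            simp only [Function.update_self, hi, if_false, mem_insert_self, if_true, sub_mul,
              add_mul, c1, c3, one_mul]
            abel
          · simp [e]
        · simp only [hi, if_false, add_mul, neg_mul, mul_assoc S T, c1, c2, one_mul,
            neg_add_cancel]
      · rw [← mul_assoc, v4, dg_bl]
        · congr 1
          funext j
          by_cases e : j = i
          · subst e
            simp only [Function.update_self, hi, if_false, mem_insert_self, if_true, mul_sub, r1,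
              mul_one]
            abel
          · simp [e]
        · simp only [hi, if_false, mul_sub, ← mul_assoc, r1, r2, mul_one, sub_self]
  simpa using key univ

theorem tower (b : B) (e z Y : ℕ → B) (he : ∀ n k, n < k → e k * e n = e n ∧ e n * e k = e n)
    (hY : ∀ n, Y n * (b * z n) = e (n + 1)) :
    ∃ P Z : ℕ → Matrix (Option κ) (Option κ) B,
      (∀ n, P n * (diagonal (fun _ => b) * Z n) = dg fun _ => e (n + 1)) ∧
      ∀ n k, n ≤ k → (diagonal (fun _ => b) * Z k * dg (fun _ => e n) =
        diagonal (fun _ => b) * Z n * dg fun _ => e n) ∧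
        dg (fun _ => e n) * P k = dg (fun _ => e n) * P n := by
  choose V V' v1 v2 v3 v4 using fun n => slot (κ := κ) b (z n) (Y n) (z (n + 1)) (Y (n + 1)) (e n)
    (by rw [hY, (he n _ (by omega)).1]) (by rw [hY, (he n _ (by omega)).1])
    (by rw [hY, (he n _ (by omega)).2]) (by rw [hY, (he n _ (by omega)).2])
  let U : ℕ → Matrix (Option κ) (Option κ) B := fun n => Nat.rec 1 (fun n U => U * V n) n
  let U' : ℕ → Matrix (Option κ) (Option κ) B := fun n => Nat.rec 1 (fun n U => V' n * U) n
  have u1 : ∀ n, U' n * U n = 1 := by
    intro n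
    induction n with
    | zero => exact one_mul _
    | succ n ih =>
      change V' n * U' n * (U n * V n) = 1
      rw [mul_assoc, ← mul_assoc (U' n), ih, one_mul, v1]
  have u2 : ∀ n, JP b (U n) := by
    intro n
    induction n with
    | zero => exact fun Z => ⟨Z, one_mul _⟩
    | succ n ih => exact ih.mul (v2 n)
  choose Z hZ using fun n => u2 n (dg fun _ => z n)
  have e1 : ∀ n, diagonal (fun _ => b) * dg (fun _ : κ => z n) = dg fun _ => b * z n := by
    intro n
    simp only [dg, diagonal_mul_diagonal]
    congr 1
    funext o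
    cases o <;> simp
  simp only [e1] at hZ
  refine ⟨fun n => dg (fun _ => Y n) * U' n, Z, fun n => ?_, fun n k hk => ?_⟩
  · rw [← hZ, mul_assoc, ← mul_assoc (U' n), u1, one_mul, dg_mul]
    simp only [hY]
  · simp only [← hZ]
    induction k, hk using Nat.le_induction with
    | base => exact ⟨rfl, rfl⟩
    | succ k hk ih =>
      have a1 : U (k + 1) * dg (fun _ => b * z (k + 1)) * dg (fun _ => e k) =
          U k * dg (fun _ => b * z k) * dg fun _ : κ => e k := by
        change U k * V k * _ * _ = _
        rw [mul_assoc, mul_assoc, dg_mul, v3, mul_assoc (U k), dg_mul]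
      have a2 : dg (fun _ => e k) * (dg (fun _ => Y (k + 1)) * U' (k + 1)) =
          dg (fun _ : κ => e k) * (dg (fun _ => Y k) * U' k) := by
        change _ * (_ * (V' k * U' k)) = _
        rw [← mul_assoc, ← mul_assoc, dg_mul, v4, ← mul_assoc, dg_mul]
      rcases hk.eq_or_lt with rfl | hk
      · exact ⟨a1, a2⟩
      · have b1 : dg (fun _ : κ => e n) = dg (fun _ => e k) * dg fun _ => e n := by
          rw [dg_mul]; simp only [(he n k hk).1]
        have b2 : dg (fun _ : κ => e n) = dg (fun _ => e n) * dg fun _ => e k := by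
          rw [dg_mul]; simp only [(he n k hk).2]
        refine ⟨?_, ?_⟩
        · rw [← ih.1]
          conv_lhs => rw [b1, ← mul_assoc, a1, mul_assoc, ← b1]
        · rw [← ih.2]
          conv_lhs => rw [b2, mul_assoc, a2, ← mul_assoc, ← b2]

end alg

end Pool.Agent.H.MP_8d0139_an
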