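import Mathlib
import Pool.Agent.H.MP_8d0139_an.D

set_option autoImplicit false
set_option linter.unusedSectionVars false

namespace Pool.Agent.H.MP_8d0139_an

open Matrix Filter Topology Finset

section fn
variable {K : Type} [TopologicalSpace K] [CompactSpace K] (x : C(K, ℝ))

/-- cut-off functions -/
noncomputable def cut (n : ℕ) : C(K, ℝ) := ⟨fun t => min 1 (max 0 (2 ^ (n + 1) * x t - 1)), by fun_prop⟩

lemma cut_mem (n : ℕ) (t : K) : 0 ≤ cut x n t ∧ cut x n t ≤ 1 :=
  ⟨le_min zero_le_one (le_max_left _ _), min_le_left _ _⟩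

lemma cut_one {n : ℕ} {t : K} (h : 1 ≤ 2 ^ n * x t) : cut x n t = 1 :=
  min_eq_left (le_max_of_le_right (by rw [pow_succ]; linarith))

lemma cut_zero {n : ℕ} {t : K} (h : 2 ^ (n + 1) * x t ≤ 1) : cut x n t = 0 := by
  change min 1 (max 0 (2 ^ (n + 1) * x t - 1)) = 0
  rw [max_eq_left (by linarith), min_eq_right zero_le_one]

lemma cut_mul {n k : ℕ} (h : n < k) : cut x k * cut x n = cut x n := by
  ext t
  rcases le_total (2 ^ (n + 1) * x t) 1 with c | c
  · simp [cut_zero x c]
  · have h1 : (2 : ℝ) ^ (n + 1) ≤ 2 ^ k := pow_le_pow_right₀ one_le_two h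
    have h2 : 0 ≤ x t := by
      by_contra h3
      nlinarith [pow_pos (two_pos : (0 : ℝ) < 2) (n + 1)]
    simp [cut_one x (c.trans (mul_le_mul_of_nonneg_right h1 h2))]

lemma div_ex (y f : C(K, ℝ)) {c : ℝ} (hc : 0 < c) (h : ∀ t, f t ≠ 0 → c ≤ y t) :
    ∃ k : C(K, ℝ), k * y = f := by
  refine ⟨⟨fun t => f t / max (y t) c, f.continuous.div (by fun_prop)
    fun t => (lt_max_of_lt_right hc).ne'⟩, ?_⟩
  ext t
  by_cases e : f t = 0
  · simp [e]
  · have := h t e
    simp only [ContinuousMap.mul_apply, ContinuousMap.coe_mk, max_eq_left this]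
    exact div_mul_cancel₀ _ (hc.trans_le this).ne'

lemma cut_ne {n : ℕ} {t : K} (h : cut x n t ≠ 0) : 1 ≤ 2 ^ (n + 1) * x t :=
  (not_le.1 fun c => h (cut_zero x c)).le

lemma cut_div (n : ℕ) : ∃ k : C(K, ℝ), k * x = cut x n :=
  div_ex x _ (c := 1 / 2 ^ (n + 1)) (by positivity) fun t ht => by
    rw [div_le_iff₀ (by positivity), mul_comm]; exact cut_ne x ht

lemma cut_lim (hx : ∀ t, 0 ≤ x t) : Tendsto (fun n => x * cut x n) atTop (𝓝 x) := by
  rw [tendsto_iff_norm_sub_tendsto_zero]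
  refine squeeze_zero (fun _ => norm_nonneg _) (fun n => ?_)
    (tendsto_pow_atTop_nhds_zero_of_lt_one (r := 1 / 2) (by norm_num) (by norm_num))
  refine (ContinuousMap.norm_le _ (by positivity)).2 fun t => ?_
  rcases le_total 1 (2 ^ n * x t) with c | c
  · simp [cut_one x c]
  · have := cut_mem x n t
    have h1 : x t ≤ (1 / 2) ^ n := by
      rw [one_div, inv_pow, ← one_div, le_div_iff₀ (by positivity), mul_comm]; exact c
    simp only [ContinuousMap.sub_apply, ContinuousMap.mul_apply, Real.norm_eq_abs, abs_le]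
    constructor <;> nlinarith [hx t]

end fn

lemma sm {E : Type} [NormedAddCommGroup E] [NormedSpace ℝ E] [CompleteSpace E] (w : ℕ → ℝ)
    (M : ℕ → E) (h : ∀ n, ‖w n • M n‖ ≤ (1 / 2) ^ n) :
    ∃ S, Tendsto (fun K => ∑ n ∈ range K, w n • M n) atTop (𝓝 S) :=
  ⟨_, (Summable.of_norm_bounded summable_geometric_two h).hasSum.tendsto_sum_nat⟩

variable {B : Type} [CStarAlgebra B] [PartialOrder B] [StarOrderedRing B]

lemma lim_mul {κ : Type} [Fintype κ] (w : ℕ → ℝ) (M N : ℕ → Matrix κ κ B) (b : Matrix κ κ B)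
    (S T : Matrix κ κ B) (h : Tendsto (fun K => ∑ n ∈ range K, w n • M n) atTop (𝓝 S))
    (h' : Tendsto (fun K => ∑ n ∈ range K, w n • N n) atTop (𝓝 T)) :
    Tendsto (fun K => (∑ n ∈ range K, w n • M n) * b * ∑ n ∈ range K, w n • N n) atTop
      (𝓝 (S * b * T)) := (h.mul_const b).mul h'

theorem ana (κ : Type) [Fintype κ] [DecidableEq κ] {a b : B} (ha : 0 ≤ a) (u v : ℕ → B)
    (h : Tendsto (fun k => u k * b * v k) atTop (𝓝 a)) :
    ∃ (s c : B) (g : ℕ → B) (P Z : Matrix (Option κ) (Option κ) B), s = c * (a * a) ∧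
      Tendsto (fun k => g k * s) atTop (𝓝 a) ∧
      P * diagonal (fun _ => b) * Z = dg fun _ => s := by
  have hs : IsSelfAdjoint a := .of_nonneg ha
  let φ : C(spectrum ℝ a, ℝ) →⋆ₐ[ℝ] B := cfcHom hs
  have φc : Continuous φ := cfcHom_continuous hs
  let x : C(spectrum ℝ a, ℝ) := (ContinuousMap.id ℝ).restrict (spectrum ℝ a)
  have φx : φ x = a := cfcHom_id hs
  have hx : ∀ t, 0 ≤ x t := fun t => spectrum_nonneg_of_nonneg ha t.2
  choose kk hkk using cut_div x
  let e : ℕ → B := fun n => φ (cut x n)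
  have he : ∀ n k, n < k → e k * e n = e n ∧ e n * e k = e n := fun n k h =>
    ⟨by simp only [e, ← map_mul, cut_mul x h], by
      simp only [e, ← map_mul]; rw [mul_comm, cut_mul x h]⟩
  have hY : ∀ n, ∃ z Y, Y * (b * z) = e (n + 1) := by
    intro n
    have : Tendsto (fun k => ‖-(φ (kk (n + 2)) * (u k * b * v k - a))‖) atTop (𝓝 0) := by
      have := ((h.sub_const a).const_mul (φ (kk (n + 2)))).neg.norm
      simpa using this
    obtain ⟨k, hk⟩ := (this.eventually (gt_mem_nhds one_pos)).exists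
    refine ⟨v k * e (n + 1), ↑(Units.oneSub _ hk)⁻¹ * φ (kk (n + 2)) * u k, ?_⟩
    rw [mul_assoc, mul_assoc, Units.inv_mul_eq_iff_eq_mul, Units.val_oneSub]
    have : φ (kk (n + 2)) * a = e (n + 2) := by
      have := map_mul φ (kk (n + 2)) x
      rw [hkk, φx] at this
      exact this.symm
    rw [sub_neg_eq_add, mul_sub, this, add_mul, sub_mul, (he _ _ (by omega)).1]
    simp only [mul_assoc, one_mul, add_sub_cancel]
  choose z Y hY using hY
  obtain ⟨P, Z, p1, p2⟩ := tower (κ := κ) b e z Y he hY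
  let M1 : ℕ → Option κ → Option κ → B := fun n => (Z n * dg fun _ => e n :
    Matrix (Option κ) (Option κ) B)
  let M2 : ℕ → Option κ → Option κ → B := fun n => (dg (fun _ => e n) * P n :
    Matrix (Option κ) (Option κ) B)
  let w : ℕ → ℝ := fun n => (1 / 2) ^ n / (1 + ‖M1 n‖ + ‖M2 n‖ + ‖kk n‖)
  have w0 : ∀ n, 0 < w n := fun n => by positivity
  have wb : ∀ n r, r ≤ 1 + ‖M1 n‖ + ‖M2 n‖ + ‖kk n‖ → ‖w n‖ * r ≤ (1 / 2) ^ n := by
    intro n r hr
    rw [Real.norm_of_nonneg (w0 n).le]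
    refine (mul_le_mul_of_nonneg_left hr (w0 n).le).trans_eq (div_mul_cancel₀ _ (by positivity))
  obtain ⟨S1, s1⟩ := sm w M1 fun n => by
    rw [norm_smul]; exact wb _ _ (by linarith [norm_nonneg (M2 n), norm_nonneg (kk n)])
  obtain ⟨S2, s2⟩ := sm w M2 fun n => by
    rw [norm_smul]; exact wb _ _ (by linarith [norm_nonneg (M1 n), norm_nonneg (kk n)])
  obtain ⟨S3, s3⟩ := sm w kk fun n => by
    rw [norm_smul]; exact wb _ _ (by linarith [norm_nonneg (M1 n), norm_nonneg (M2 n)])
  have s4 : Tendsto (fun K => ∑ n ∈ range K, w n • cut x n) atTop (𝓝 (S3 * x)) := by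
    simpa only [sum_mul, smul_mul_assoc, hkk] using s3.mul_const x
  have s5 : ∀ n t, w n * cut x n t ≤ (S3 * x) t := by
    intro n t
    refine ge_of_tendsto (((continuous_eval_const t).tendsto _).comp s4) ?_
    filter_upwards [eventually_gt_atTop n] with K hK
    simp only [Function.comp, ContinuousMap.sum_apply, ContinuousMap.smul_apply, smul_eq_mul]
    exact single_le_sum (f := fun n => w n * cut x n t)
      (fun i _ => mul_nonneg (w0 i).le (cut_mem x i t).1) (mem_range.2 hK)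
  have hg : ∀ n, ∃ g : C(spectrum ℝ a, ℝ), g * (S3 * x * (S3 * x)) = x * cut x n := fun n =>
    div_ex _ _ (c := w (n + 1) * w (n + 1)) (mul_pos (w0 _) (w0 _)) fun t ht => by
      have := s5 (n + 1) t
      rw [cut_one x (cut_ne x (right_ne_zero_of_mul ht)), mul_one] at this
      exact mul_self_le_mul_self (w0 _).le this
  choose g hg using hg
  refine ⟨φ (S3 * x) * φ (S3 * x), φ (S3 * S3), fun n => φ (g n), Matrix.of S2, Matrix.of S1,
    by rw [← congrArg₂ (· * ·) φx φx]; simp only [← map_mul]; congr 1; ring, ?_, ?_⟩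
  · simp only [← map_mul, hg]
    have := (φc.tendsto x).comp (cut_lim x hx)
    rwa [φx] at this
  · have t1 := lim_mul w (fun n => dg (fun _ => e n) * P n) (fun n => Z n * dg fun _ => e n)
      (diagonal fun _ => b) S2 S1 s2 s1
    have t2 := (φc.tendsto _).comp s4
    have t3 : Continuous fun y : B => dg fun _ : κ => y * y := by
      refine Continuous.matrix_diagonal (continuous_pi fun o => ?_)
      cases o
      · exact continuous_const
      · exact continuous_id.mul continuous_id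
    refine tendsto_nhds_unique t1 (((t3.tendsto _).comp t2).congr fun K => ?_)
    have d1 : dg (fun _ : κ => ∑ n ∈ range K, w n • e n) = ∑ n ∈ range K, w n • dg fun _ => e n := by
      ext p q
      simp only [dg, Matrix.sum_apply, Matrix.smul_apply, diagonal_apply]
      split_ifs
      · cases p <;> simp
      · simp
    have d2 : ∑ n ∈ range K, w n • (dg (fun _ => e n) * P n) =
        dg (fun _ : κ => ∑ n ∈ range K, w n • e n) * P K := by
      rw [d1, sum_mul]
      exact sum_congr rfl fun n hn => by rw [smul_mul_assoc, (p2 n K (mem_range.1 hn).le).2]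
    have d3 : diagonal (fun _ => b) * ∑ n ∈ range K, w n • (Z n * dg fun _ => e n) =
        diagonal (fun _ => b) * Z K * dg (fun _ : κ => ∑ n ∈ range K, w n • e n) := by
      rw [d1, mul_sum, mul_sum]
      exact sum_congr rfl fun n hn => by
        rw [mul_smul_comm, mul_smul_comm, (p2 n K (mem_range.1 hn).le).1, mul_assoc]
    rw [mul_assoc, d2, d3, mul_assoc, ← mul_assoc (P K), p1, dg_mul, dg_mul]
    simp only [Function.comp, map_sum, map_smul]
    congr 1
    funext _
    congr 1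
    rw [mul_sum]
    exact sum_congr rfl fun n hn => by
      rw [mul_smul_comm, (he n _ (by have := mem_range.1 hn; omega)).1]

theorem dom {b c : B} (hb : 0 ≤ b) (hc : 0 ≤ c) {l : ℝ} (hl : 0 ≤ l) (h : c ≤ l • b) {ε : ℝ}
    (hε : 0 < ε) : ∃ r, ‖r * b * star r - c‖ ≤ ε * l := by
  have hs : IsSelfAdjoint b := .of_nonneg hb
  let T := cfc (fun t : ℝ => (√(t + ε))⁻¹) b
  have hT : IsSelfAdjoint T := cfc_predicate _ _
  have cont : ContinuousOn (fun t : ℝ => (√(t + ε))⁻¹) (spectrum ℝ b) :=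
    ContinuousOn.inv₀ (by fun_prop) fun t ht =>
      (Real.sqrt_pos.2 (by linarith [spectrum_nonneg_of_nonneg hb ht])).ne'
  have e1 : T * b * T + ε • (T * T) = 1 := by
    conv_lhs => rw [← cfc_id' ℝ b]
    simp only [T]
    rw [cfc_id' ℝ b]
    nth_rw 2 [← cfc_id' ℝ b]
    rw [← cfc_mul .., ← cfc_mul .., ← cfc_mul .., ← cfc_smul .., ← cfc_add .., ← cfc_const_one ℝ b]
    refine cfc_congr fun t ht => ?_
    have h0 : 0 < t + ε := by linarith [spectrum_nonneg_of_nonneg hb ht]
    have h1 := Real.mul_self_sqrt h0.le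
    have h2 := Real.sqrt_pos.2 h0
    simp only [smul_eq_mul]
    field_simp
    nlinarith
  obtain ⟨q, hq, rfl⟩ : ∃ q, IsSelfAdjoint q ∧ c = q * q :=
    ⟨CFC.sqrt c, .of_nonneg (CFC.sqrt_nonneg c), (CFC.sqrt_mul_sqrt_self c hc).symm⟩
  refine ⟨q * T, ?_⟩
  have e2 : q * T * b * star (q * T) - q * q = -(ε • (q * T * star (q * T))) := by
    have := congrArg (fun y => q * y * q) e1
    simp only [mul_add, add_mul, mul_one, mul_smul_comm, smul_mul_assoc] at this
    rw [star_mul, hT.star_eq, hq.star_eq, ← this]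
    simp only [mul_assoc]
    abel
  rw [e2, norm_neg, norm_smul, Real.norm_of_nonneg hε.le, CStarRing.norm_self_mul_star,
    ← CStarRing.norm_star_mul_self]
  refine mul_le_mul_of_nonneg_left ?_ hε.le
  rw [CStarAlgebra.norm_le_iff_le_algebraMap _ hl (star_mul_self_nonneg _)]
  have e3 := star_left_conjugate_le_conjugate h T
  have e4 : T * b * T ≤ 1 := by
    rw [← e1]
    refine le_add_of_nonneg_right (smul_nonneg hε.le ?_)
    simpa [hT.star_eq] using star_mul_self_nonneg T
  rw [hT.star_eq, mul_smul_comm, smul_mul_assoc] at e3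
  rw [star_mul, hT.star_eq, hq.star_eq, Algebra.algebraMap_eq_smul_one]
  calc T * q * (q * T) = T * (q * q) * T := by simp only [mul_assoc]
    _ ≤ l • (T * b * T) := e3
    _ ≤ l • 1 := smul_le_smul_of_nonneg_left e4 hl

theorem dom' {b c : B} (hb : 0 ≤ b) (hc : 0 ≤ c) {l : ℝ} (hl : 0 ≤ l) (h : c ≤ l • b) :
    c ∈ closure (Set.range fun r => r * b * star r) := by
  refine Metric.mem_closure_iff.2 fun ε hε => ?_
  obtain ⟨r, hr⟩ := dom hb hc hl h (ε := ε / (l + 1)) (by positivity)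
  refine ⟨_, ⟨r, rfl⟩, ?_⟩
  rw [dist_comm, dist_eq_norm]
  refine hr.trans_lt ?_
  rw [div_mul_eq_mul_div, div_lt_iff₀ (by positivity)]
  nlinarith

theorem root {a : B} (ha : 0 ≤ a) : ∃ (q : B) (g : ℕ → B), a = star q * q ∧
    Tendsto (fun k => g k * a) atTop (𝓝 q) := by
  obtain ⟨_, c, g, -, -, rfl, h, -⟩ := ana Empty (CFC.sqrt_nonneg a) (fun _ => 1) (fun _ => 1)
    (b := CFC.sqrt a) (by simp)
  rw [CFC.sqrt_mul_sqrt_self a ha] at h
  refine ⟨CFC.sqrt a, fun k => g k * c, ?_, by simpa only [mul_assoc] using h⟩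
  rw [(IsSelfAdjoint.of_nonneg (CFC.sqrt_nonneg a)).star_eq, CFC.sqrt_mul_sqrt_self a ha]

end Pool.Agent.H.MP_8d0139_an
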