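import Mathlib
import Pool.Agent.H.MP_8d0139_an.C
import Pool.Agent.H.MP_8d0139_an.E

set_option autoImplicit false
set_option linter.unusedSectionVars false

namespace Pool.Agent.H.MP_8d0139_an

open Matrix Filter Topology Finset

section gen
variable {B : Type} [CStarAlgebra B] [PartialOrder B] [StarOrderedRing B]

lemma nn_iff {a : B} : 0 ≤ a ↔ ∃ x, a = star x * x := CStarAlgebra.nonneg_iff_eq_star_mul_self

lemma bd_nat {h : B} (hh : IsSelfAdjoint h) : ∃ (N : ℕ) (w : B), h + star w * w = N • 1 := by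
  obtain ⟨N, hN⟩ := exists_nat_ge ‖h‖
  have h1 : h ≤ N • 1 := by
    refine hh.le_algebraMap_norm_self.trans ?_
    rw [Algebra.algebraMap_eq_smul_one, ← Nat.cast_smul_eq_nsmul ℝ]
    exact smul_le_smul_of_nonneg_right hN zero_le_one
  obtain ⟨w, hw⟩ := CStarAlgebra.nonneg_iff_eq_star_mul_self.1 (sub_nonneg.2 h1)
  exact ⟨N, w, by rw [← hw, add_sub_cancel]⟩

lemma dom_nat {b c d : B} (hb : 0 ≤ b) (hc : 0 ≤ c) (hd : 0 ≤ d) (N : ℕ) (h : c + d = N • b) :
    c ∈ closure (Set.range fun r => r * b * star r) :=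
  dom' hb hc (Nat.cast_nonneg N) (by
    rw [Nat.cast_smul_eq_nsmul, ← h]; exact le_add_of_nonneg_right hd)

end gen

section ring
variable {R : Type} [Ring R] {m n m' n' : Type} [Fintype m] [Fintype n] [Fintype m'] [Fintype n']
  {ρ : Rk R}

lemma sub_fac (X : Matrix m n R) (e : m' → m) (f : n' → n) :
    ∃ (U : Matrix m' m R) (V : Matrix n n' R), X.submatrix e f = U * X * V := by
  classical
  exact ⟨(1 : Matrix m m R).submatrix e id, (1 : Matrix n n R).submatrix id f, by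
    ext i j; simp [Matrix.mul_apply, Matrix.one_apply]⟩

lemma WSyl.sub_le (h : WSyl ρ) (X : Matrix m n R) (e : m' → m) (f : n' → n) :
    ρ _ _ (X.submatrix e f) ≤ ρ _ _ X := by
  obtain ⟨U, V, e⟩ := sub_fac X e f
  rw [e]
  exact h.lr _ _ _

lemma WSyl.sub_eq (h : WSyl ρ) (X : Matrix m n R) (e : m' ≃ m) (f : n' ≃ n) :
    ρ _ _ (X.submatrix e f) = ρ _ _ X :=
  le_antisymm (h.sub_le _ _ _) (by simpa using h.sub_le (X.submatrix e f) e.symm f.symm)

lemma WSyl.diag (h : WSyl ρ) (κ : Type) [Fintype κ] : ∀ [DecidableEq κ] (f : κ → Matrix n n R),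
    ρ _ _ (comp κ κ n n R (diagonal f)) = ∑ i, ρ _ _ (f i) := by
  refine Fintype.induction_empty_option (P := fun κ _ => ∀ [DecidableEq κ] (f : κ → Matrix n n R),
    ρ _ _ (comp κ κ n n R (diagonal f)) = ∑ i, ρ _ _ (f i)) ?_ ?_ ?_ κ
  · intro α β _ e ih _ f
    classical
    let _ := Fintype.ofEquiv β e.symm
    rw [← e.sum_comp, ← ih, ← h.sub_eq _ (e.prodCongr (.refl n)) (e.prodCongr (.refl n))]
    congr 1
    ext ⟨i, j⟩ ⟨i', j'⟩
    simp [comp, diagonal_apply]
  · intro _ f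
    rw [Subsingleton.elim (comp _ _ n n R (diagonal f)) 0, h.zero]
    simp
  · intro α _ ih _ f
    classical
    rw [Fintype.sum_option, ← ih, ← h.add,
      ← h.sub_eq _ optionProdEquiv optionProdEquiv]
    congr 1
    ext ⟨_ | i, j⟩ ⟨_ | i', j'⟩ <;> simp [comp, diagonal_apply]

end ring

variable {A : Type} [CStarAlgebra A]
variable {m n k m' n' k' : Type} [Fintype m] [Fintype n] [Fintype k] [Fintype m'] [Fintype n']
  [Fintype k']

instance : FirstCountableTopology (Matrix m n A) :=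
  inferInstanceAs (FirstCountableTopology (m → n → A))

/-- positive matrices -/
def Pos (a : Matrix n n A) : Prop := ∃ x : Matrix n n A, a = xᴴ * x

/-- approximate domination -/
def Le (X : Matrix m n A) (Y : Matrix m' n' A) : Prop :=
  X ∈ closure {Z | ∃ (U : Matrix m m' A) (V : Matrix n' n A), Z = U * Y * V}

/-- Cuntz subequivalence -/
def Cz (a : Matrix n n A) (b : Matrix m m A) : Prop :=
  ∃ x : ℕ → Matrix n m A, Tendsto (fun k => x k * b * (x k)ᴴ) atTop (𝓝 a)

lemma Le.of (U : Matrix m m' A) (Y : Matrix m' n' A) (V : Matrix n' n A) : Le (U * Y * V) Y :=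
  subset_closure ⟨U, V, rfl⟩

lemma Le.sub (X : Matrix m n A) (e : m' → m) (f : n' → n) : Le (X.submatrix e f) X :=
  subset_closure (sub_fac X e f)

lemma Le.trans {l l' : Type} [Fintype l] [Fintype l'] {X : Matrix m n A} {Y : Matrix m' n' A}
    {W : Matrix l l' A} (h : Le X Y) (h' : Le Y W) : Le X W := by
  refine closure_minimal ?_ isClosed_closure h
  rintro _ ⟨U, V, rfl⟩
  refine map_mem_closure (f := fun Y => U * Y * V)
    ((continuous_const.matrix_mul continuous_id).matrix_mul continuous_const) h' ?_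
  rintro _ ⟨U', V', rfl⟩
  exact ⟨U * U', V' * V, by simp only [Matrix.mul_assoc]⟩

lemma Cz.le {a : Matrix n n A} {b : Matrix m m A} (h : Cz a b) : Le a b :=
  let ⟨x, hx⟩ := h
  mem_closure_of_tendsto hx (.of_forall fun k => ⟨x k, _, rfl⟩)

variable [PartialOrder A] [StarOrderedRing A]

lemma pos_iff {a : Matrix n n A} : Pos a ↔ 0 ≤ CStarMatrix.ofMatrix a := by
  classical
  exact (nn_iff (B := CStarMatrix n n A)).symm

lemma pos_rect (Z : Matrix m n A) : 0 ≤ CStarMatrix.ofMatrix (Zᴴ * Z) := by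
  classical
  rcases isEmpty_or_nonempty n with h | ⟨⟨j⟩⟩
  · exact le_of_eq (CStarMatrix.ext fun i => isEmptyElim i)
  · let y : m → Matrix n n A := fun i => Matrix.of fun p q => if p = j then Z i q else 0
    have : Zᴴ * Z = ∑ i, (y i)ᴴ * y i := by
      ext p q
      simp [y, Matrix.sum_apply, Matrix.mul_apply]
    rw [this]
    exact sum_nonneg (N := CStarMatrix n n A) fun i _ =>
      star_mul_self_nonneg (CStarMatrix.ofMatrix (y i))

theorem Le.cz {X : Matrix m n A} {Y : Matrix m' n' A} (h : Le X Y) : Cz (Xᴴ * X) (Yᴴ * Y) := by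
  classical
  have : Xᴴ * X ∈ closure (Set.range fun x : Matrix n n' A => x * (Yᴴ * Y) * xᴴ) := by
    rw [← closure_closure]
    refine map_mem_closure (f := fun X : Matrix m n A => Xᴴ * X)
      (continuous_id.matrix_conjTranspose.matrix_mul continuous_id) h ?_
    rintro _ ⟨U, V, rfl⟩
    obtain ⟨N, w, hw⟩ : ∃ (N : ℕ) (w : Matrix m' m' A), Uᴴ * U + wᴴ * w = N • 1 :=
      bd_nat (IsSelfAdjoint.of_nonneg (pos_rect U))
    have h1 : (U * Y)ᴴ * (U * Y) + (w * Y)ᴴ * (w * Y) = N • (Yᴴ * Y) := by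
      have := congrArg (fun Q => Yᴴ * Q * Y) hw
      have h0 : ∀ N : ℕ, Yᴴ * (N • (1 : Matrix m' m' A)) * Y = N • (Yᴴ * Y) := fun N => by
        induction N with
        | zero => simp
        | succ N ih => simp only [succ_nsmul, Matrix.mul_add, Matrix.add_mul, ih, Matrix.mul_one]
      replace this := this.trans (h0 N)
      simpa only [Matrix.mul_add, Matrix.add_mul, Matrix.mul_assoc, conjTranspose_mul] using this
    have h2 : (U * Y)ᴴ * (U * Y) ∈ closure (Set.range fun r : Matrix n' n' A =>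
        r * (Yᴴ * Y) * rᴴ) := dom_nat (pos_rect Y) (pos_rect (U * Y)) (pos_rect (w * Y)) N h1
    have h3 := map_mem_closure (f := fun Q : Matrix n' n' A => Vᴴ * Q * V)
      (t := Set.range fun x : Matrix n n' A => x * (Yᴴ * Y) * xᴴ)
      ((continuous_const.matrix_mul continuous_id).matrix_mul continuous_const) h2 (by
        rintro _ ⟨r, rfl⟩
        exact ⟨Vᴴ * r, by simp [Matrix.mul_assoc]⟩)
    simpa only [conjTranspose_mul, Matrix.mul_assoc] using h3
  obtain ⟨x, h1, h2⟩ := mem_closure_iff_seq_limit.1 this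
  choose r hr using h1
  exact ⟨r, by simpa only [hr] using h2⟩

lemma Pos.rect (Z : Matrix m n A) : Pos (Zᴴ * Z) := pos_iff.2 (pos_rect Z)

lemma Pos.root {a : Matrix n n A} (h : Pos a) :
    ∃ q : Matrix n n A, a = qᴴ * q ∧ Le q a := by
  classical
  obtain ⟨q, g, h1, h2⟩ : ∃ (q : Matrix n n A) (g : ℕ → Matrix n n A), a = qᴴ * q ∧
    Tendsto (fun k => g k * a) atTop (𝓝 q) := MP_8d0139_an.root (pos_iff.1 h)
  exact ⟨q, h1, mem_closure_of_tendsto h2 (.of_forall fun k => ⟨g k, 1, by simp⟩)⟩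

theorem face {ρ ρ' : Rk A} (h : WSyl ρ) (h' : WSyl ρ')
    (hm : ∀ (n : Type) [Fintype n] (X Y : Matrix n n A), Le X Y →
      ρ _ _ X + ρ' _ _ X ≤ ρ _ _ Y + ρ' _ _ Y)
    {a : Matrix n n A} {b : Matrix m m A} (ha : Pos a) (e : Le a b) : ρ _ _ a ≤ ρ _ _ b := by
  classical
  have key : ∀ (n : Type) [Fintype n] (a b : Matrix n n A), Pos a → Le a b →
      ρ _ _ a ≤ ρ _ _ b := by
    intro n _ a b ha e
    obtain ⟨x, h1, h2⟩ := mem_closure_iff_seq_limit.1 e
    choose u v huv using h1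
    have h3 : ∀ N : ℕ, N * ρ _ _ a ≤ (N + 1) * ρ _ _ b := by
      intro N
      obtain ⟨s, c, g, P, Z, e1, e2, e3⟩ : ∃ (s c : Matrix n n A) (g : ℕ → Matrix n n A)
        (P Z : Matrix (Option (Fin N)) (Option (Fin N)) (Matrix n n A)), s = c * (a * a) ∧
        Tendsto (fun k => g k * s) atTop (𝓝 a) ∧
        P * diagonal (fun _ => b) * Z = dg fun _ => s :=
          by
        have := ana (B := CStarMatrix n n A) (Fin N) (b := b) (pos_iff.1 ha) u v
            (show Tendsto (fun k => u k * b * v k) atTop (𝓝 a) from h2.congr huv)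
        exact this
      have e4 := hm n a s (mem_closure_of_tendsto e2 (.of_forall fun k => ⟨g k, 1, by simp⟩))
      have e5 : ρ' _ _ s ≤ ρ' _ _ a := by
        rw [e1, ← mul_assoc]; exact h'.l _ _ _ _ _
      have e6 := congrArg (compRingEquiv (Option (Fin N)) n A) e3
      rw [_root_.map_mul, _root_.map_mul] at e6
      have e7 := h.lr (compRingEquiv (Option (Fin N)) n A P)
        (compRingEquiv (Option (Fin N)) n A (diagonal fun _ => b))
        (compRingEquiv (Option (Fin N)) n A Z)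
      rw [e6, dg, compRingEquiv_apply, compRingEquiv_apply, h.diag, h.diag] at e7
      simp only [Fintype.sum_option, Option.elim, h.zero, sum_const, card_univ, Fintype.card_fin,
        nsmul_eq_mul, Fintype.card_option, Nat.cast_add, Nat.cast_one] at e7
      nlinarith [(Nat.cast_nonneg N : (0 : ℝ) ≤ N)]
    by_contra h4
    have h5 := sub_pos.2 (not_le.1 h4)
    obtain ⟨N, hN⟩ := exists_nat_gt (ρ _ _ b / (ρ _ _ a - ρ _ _ b))
    rw [div_lt_iff₀ h5] at hN
    linarith [h3 N]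
  let a' : Matrix (n ⊕ m) (n ⊕ m) A := fromBlocks a 0 0 0
  let b' : Matrix (n ⊕ m) (n ⊕ m) A := fromBlocks 0 0 0 b
  have h1 : ρ _ _ a' = ρ _ _ a := by rw [h.add, h.zero, add_zero]
  have h2 : ρ _ _ b' = ρ _ _ b := by rw [h.add, h.zero, zero_add]
  rw [← h1, ← h2]
  refine key _ _ _ ?_ (Le.trans ?_ (e.trans (Le.sub b' Sum.inr Sum.inr)))
  · obtain ⟨x, rfl⟩ := ha
    exact ⟨fromBlocks x 0 0 0, by simp [a', fromBlocks_conjTranspose, fromBlocks_multiply]⟩
  · refine subset_closure ⟨fromRows 1 (0 : Matrix m n A), fromCols 1 (0 : Matrix n m A), ?_⟩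
    rw [fromRows_mul, fromRows_mul_fromCols]
    simp [a']

/-- dimension functions -/
def DF (d : (n : ℕ) → Matrix (Fin n) (Fin n) A → ℝ) : Prop :=
  (∀ (n : ℕ) (a : Matrix (Fin n) (Fin n) A), Pos a → 0 ≤ d n a) ∧
  (∀ (n m : ℕ) (a : Matrix (Fin n) (Fin n) A) (b : Matrix (Fin m) (Fin m) A), Pos a → Pos b →
    d (n + m) (Matrix.reindex finSumFinEquiv finSumFinEquiv (Matrix.fromBlocks a 0 0 b)) =
      d n a + d m b) ∧
  (∀ (n m : ℕ) (a : Matrix (Fin n) (Fin n) A) (b : Matrix (Fin m) (Fin m) A), Pos a → Pos b →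
    Cz a b → d n a ≤ d m b)

/-- the rank function of a dimension function -/
noncomputable def rk (d : (n : ℕ) → Matrix (Fin n) (Fin n) A → ℝ) : Rk A := fun _ n _ _ X =>
  d _ ((X.submatrix id (Fintype.equivFin n).symm)ᴴ * X.submatrix id (Fintype.equivFin n).symm)

variable {d : (n : ℕ) → Matrix (Fin n) (Fin n) A → ℝ}

lemma Le.sub' (X : Matrix m n A) (e : m' ≃ m) (f : n' ≃ n) : Le X (X.submatrix e f) := by
  simpa using Le.sub (X.submatrix e f) e.symm f.symm

lemma DF.m0 (h : DF d) {p q : ℕ} {X : Matrix m (Fin p) A} {Y : Matrix m' (Fin q) A} (e : Le X Y) :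
    d p (Xᴴ * X) ≤ d q (Yᴴ * Y) := h.2.2 _ _ _ _ (.rect X) (.rect Y) e.cz

lemma DF.mono (h : DF d) {X : Matrix m n A} {Y : Matrix m' n' A} (e : Le X Y) :
    rk d _ _ X ≤ rk d _ _ Y :=
  h.m0 ((Le.sub _ _ _).trans (e.trans (Le.sub' Y (.refl _) _)))

lemma DF.rk_eq (h : DF d) {p : ℕ} (X : Matrix m (Fin p) A) : rk d _ _ X = d p (Xᴴ * X) :=
  le_antisymm (h.m0 (Le.sub _ _ _)) (h.m0 (Le.sub' X (.refl _) _))

lemma DF.rk_pos (h : DF d) {p : ℕ} {a : Matrix (Fin p) (Fin p) A} (ha : Pos a) :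
    rk d _ _ a = d p a := by
  obtain ⟨q, rfl, e⟩ := ha.root
  rw [← h.rk_eq q]
  exact le_antisymm (h.mono (subset_closure ⟨qᴴ, 1, by simp⟩)) (h.mono e)

lemma DF.add (h : DF d) (X : Matrix m n A) (Y : Matrix m' n' A) :
    rk d _ _ (fromBlocks X 0 0 Y) = rk d _ _ X + rk d _ _ Y := by
  let E := finSumFinEquiv.symm.trans ((Fintype.equivFin n).symm.sumCongr (Fintype.equivFin n').symm)
  rw [le_antisymm (h.mono (Le.sub' _ (.refl _) E)) (h.mono (Le.sub _ _ _)), h.rk_eq, rk, rk,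
    ← h.2.1 _ _ _ _ (.rect _) (.rect _)]
  congr 1
  ext i j
  obtain ⟨i, rfl⟩ := finSumFinEquiv.surjective i
  obtain ⟨j, rfl⟩ := finSumFinEquiv.surjective j
  rcases i with i | i <;> rcases j with j | j <;> simp [E, Matrix.mul_apply]

theorem DF.syl (h : DF d) : Syl (rk d) := by
  classical
  refine ⟨⟨fun m n k _ _ _ X Y => h.mono (subset_closure ⟨X, 1, by simp⟩),
    fun m n k _ _ _ X Y => h.mono (subset_closure ⟨1, Y, by simp⟩),
    fun m n m' n' _ _ _ _ X Y => h.add X Y⟩, fun m n m' n' _ _ _ _ X Z Y => ?_⟩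
  rw [← h.add]
  refine h.mono (mem_closure_of_tendsto (b := 𝓝[≠] (0 : ℂ)) (f := fun t => fromBlocks X (t • Z) 0 Y)
    ?_ ?_)
  · have : Continuous fun t : ℂ => fromBlocks X (t • Z) 0 Y :=
      continuous_const.matrix_fromBlocks (by fun_prop) continuous_const continuous_const
    simpa using (this.tendsto 0).mono_left nhdsWithin_le_nhds
  · filter_upwards [self_mem_nhdsWithin] with t (ht : t ≠ 0)
    exact ⟨fromBlocks 1 0 0 (t⁻¹ • 1), fromBlocks 1 0 0 (t • 1), by
      simp [fromBlocks_multiply, smul_smul, ht]⟩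

/-- monotonicity of a sum -/
def Mo (c : Cd A) : Prop := ∀ (n : Type) [Fintype n] (X Y : Matrix n n A), Le X Y →
  c n (act X).ker ≤ c n (act Y).ker

theorem key {c c' : Cd A} (v : Val c) (a : Anti c) (v' : Val c') (a' : Anti c')
    (hm : Mo fun n _ α => c n α + c' n α) (e : (n : ℕ) → Matrix (Fin n) (Fin n) A → ℝ)
    (he : ∀ n x, Pos x → e n x = c _ (act x).ker) : DF e := by
  have w := v.wsyl a
  refine ⟨fun n x hx => ?_, fun n m x y hx hy => ?_, fun n m x y hx hy h => ?_⟩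
  · rw [he n x hx]; exact w.nonneg x
  · rw [he n x hx, he m y hy, he]
    · exact (w.sub_eq _ _ _).trans (w.add _ _ _ _ x y)
    · obtain ⟨x, rfl⟩ := hx
      obtain ⟨y, rfl⟩ := hy
      refine ⟨reindex finSumFinEquiv finSumFinEquiv (fromBlocks x 0 0 y), ?_⟩
      simp [submatrix_mul_equiv, fromBlocks_conjTranspose, fromBlocks_multiply]
  · rw [he n x hx, he m y hy]
    exact face w (v'.wsyl a') hm hx h.le

lemma DF.mo (h : DF d) : Mo (cod (rk d)) := fun _ _ X Y e =>
  (h.syl.rho X).trans_le ((h.mono e).trans_eq (h.syl.rho Y).symm)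

lemma DF.ev (h : DF d) {p : ℕ} {a : Matrix (Fin p) (Fin p) A} (ha : Pos a) :
    cod (rk d) _ (act a).ker = d p a := (h.syl.rho a).trans (h.rk_pos ha)

lemma cod_rk (d d' : (n : ℕ) → Matrix (Fin n) (Fin n) A → ℝ) (α : SG A n) :
    cod (rk (d - d')) n α = cod (rk d) n α - cod (rk d') n α := cod_sub (rk d) (rk d') α

theorem main {f g : (n : ℕ) → Matrix (Fin n) (Fin n) A → ℝ} (hf : DF f) (hg : DF g) :
    (∃ s, DF s ∧ DF (s - f) ∧ DF (s - g) ∧ ∀ k, DF k → DF (k - f) → DF (k - g) → DF (k - s)) ∧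
    (∃ i, DF i ∧ DF (f - i) ∧ DF (g - i) ∧ ∀ k, DF k → DF (f - k) → DF (g - k) → DF (i - k)) := by
  have T : Two (cod (rk f)) (cod (rk g)) := ⟨hf.syl.val, hg.syl.val, hf.syl.anti, hg.syl.anti⟩
  obtain ⟨t, ht⟩ : ∃ t, t = pp (cod (rk f)) (cod (rk g)) := ⟨_, rfl⟩
  have v := T.val
  have a := T.anti
  have a' := T.anti'
  have l := fun u => T.least (u := u)
  simp only [← ht, df] at v a a' l
  have b := l _ T.af fun n _ α β x y e => by linarith [T.ag n α β x y e]
  have c1 : ∀ e : (n : ℕ) → Matrix (Fin n) (Fin n) A → ℝ,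
      (∀ n x, Pos x → e n x = t _ (act x).ker) → DF e :=
    key v a (T.vf.sub v) b fun n _ X Y e => by linarith [hf.mo n X Y e]
  have c2 : ∀ e : (n : ℕ) → Matrix (Fin n) (Fin n) A → ℝ,
      (∀ n x, Pos x → e n x = t _ (act x).ker - (f n x - g n x)) → DF e := fun e he =>
    key (v.sub (T.vf.sub T.vg)) a' (T.vf.sub v) b (fun n _ X Y e => by linarith [hg.mo n X Y e]) e
      fun n x hx => by rw [he n x hx, hf.ev hx, hg.ev hx]
  have c3 : ∀ u e : (n : ℕ) → Matrix (Fin n) (Fin n) A → ℝ, DF u → DF (u - (f - g)) →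
      (∀ n x, Pos x → e n x = u n x - t _ (act x).ker) → DF e := fun u e h1 h2 he =>
    key (h1.syl.val.sub v) (l _ h1.syl.anti (by simpa only [Anti, cod_rk] using h2.syl.anti)) v a
      (fun n _ X Y e => by linarith [h1.mo n X Y e]) e fun n x hx => by rw [he n x hx, h1.ev hx]
  refine ⟨⟨fun n x => g n x + t _ (act x).ker, ?_, c2 _ fun n x _ => ?_, c1 _ fun n x _ => ?_,
    fun k _ h1 h2 => c3 (k - g) _ h2 (by convert h1 using 1; abel) fun n x _ => ?_⟩,
    ⟨fun n x => f n x - t _ (act x).ker, c3 f _ hf (by convert hg using 1; abel) fun n x _ => rfl,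
      c1 _ fun n x _ => ?_, c2 _ fun n x _ => ?_,
      fun k _ h1 h2 => c3 (f - k) _ h1 (by convert h2 using 1; abel) fun n x _ => ?_⟩⟩
  · exact key (T.vg.add v) (fun n _ α β x y e => by linarith [T.ag n α β x y e, a n α β x y e])
      (T.vf.sub v) b (fun n _ X Y e => by linarith [hf.mo n X Y e, hg.mo n X Y e]) _
      fun n x hx => by rw [hg.ev hx]
  all_goals simp only [Pi.sub_apply]; ring

end Pool.Agent.H.MP_8d0139_an
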